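import Pool.Agent.H37.CNW.Stmts

/-!
# Board cnw, row XRR: functions with a single pole
-/

set_option autoImplicit false

namespace Pool.CND

open Finset Polynomial

namespace XRRAux

section

variable {k L : Type} [Field k] [Field L] [Algebra k L]

/-- the order of a polynomial in `t` at infinity -/
theorem ord_poly {P : Place k L} {t : L} (ht : P.ord t < 0) (h0 : t ≠ 0) :
    ∀ (n : ℕ) (q : k[X]), q.natDegree = n → q ≠ 0 →
      aeval t q ≠ 0 ∧ P.ord (aeval t q) = n * P.ord t := by
  intro n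
  induction n with
  | zero =>
    intro q hq hq0
    obtain ⟨c, rfl⟩ := Polynomial.natDegree_eq_zero.1 hq
    have hc : c ≠ 0 := by
      rintro rfl
      exact hq0 (map_zero _)
    rw [aeval_C]
    refine ⟨?_, by rw [P.ord_const c hc]; simp⟩
    simpa using hc
  | succ n ih =>
    intro q hq hq0
    have hd : q.divX.natDegree = n := by
      rw [Polynomial.natDegree_divX_eq_natDegree_tsub_one, hq]
      rfl
    have hd0 : q.divX ≠ 0 := by
      intro h
      rw [Polynomial.divX_eq_zero_iff] at h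
      rw [h, natDegree_C] at hq
      exact Nat.succ_ne_zero n hq.symm
    obtain ⟨h1, h2⟩ := ih q.divX hd hd0
    have e : aeval t q = aeval t q.divX * t + algebraMap k L (q.coeff 0) := by
      conv_lhs => rw [← Polynomial.divX_mul_X_add q]
      rw [map_add, map_mul, aeval_X, aeval_C]
    have h3 : P.ord (aeval t q.divX * t) = ((n : ℤ) + 1) * P.ord t := by
      rw [P.ord_mul _ _ h1 h0, h2]
      ring
    have h4 := P.ord_add_of_lt (x := aeval t q.divX * t) (y := algebraMap k L (q.coeff 0))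
      (mul_ne_zero h1 h0) (P.ge_mono (P.ge_const _) (by rw [h3]; nlinarith))
    rw [e]
    refine ⟨h4.1, ?_⟩
    rw [h4.2, h3]
    push_cast
    ring

theorem reg_sum {ι : Type} (s : Finset ι) (t : L) (f : ι → L) (h : ∀ i ∈ s, Reg k t (f i)) :
    Reg k t (∑ i ∈ s, f i) := by
  intro P hP
  exact P.ge_sum s f 0 (fun i hi => h i hi P hP)

theorem reg_mul {t x y : L} (hx : Reg k t x) (hy : Reg k t y) : Reg k t (x * y) := by
  intro P hP
  have h := P.ge_mul (hx P hP : P.Ge x 0) (hy P hP : P.Ge y 0)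
  rw [add_zero] at h
  exact h

theorem reg_const (t : L) (c : k) : Reg k t (algebraMap k L c) := fun P _ => P.ge_const c

theorem reg_pow_t (t : L) (ht : t ≠ 0) (n : ℕ) : Reg k t (t ^ n) := by
  intro P hP
  right
  rw [P.ord_pow ht]
  positivity

/-- the degree of `L` over `k(t)` -/
theorem finrank {G : Type} [Group G] [Finite G]
    (ρ : G →* (L ≃ₐ[k] L)) (t : L) (h : IsCover ρ t) :
    FiniteDimensional (IntermediateField.adjoin k {t}) L ∧
      Module.finrank (IntermediateField.adjoin k {t}) L = Nat.card G := by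
  let H : Subgroup (L ≃ₐ[k] L) := ρ.range
  have hHf : Finite H := by
    have h2 : (Set.range ρ).Finite := Set.finite_range ρ
    have h3 : (H : Set (L ≃ₐ[k] L)) = Set.range ρ := MonoidHom.coe_range ρ
    have : (H : Set (L ≃ₐ[k] L)).Finite := by rw [h3]; exact h2
    exact this.to_subtype
  have hHcard : Nat.card H = Nat.card G :=
    (Nat.card_congr (MonoidHom.ofInjective h.inj).toEquiv).symm
  have hE : IntermediateField.fixedField H = IntermediateField.adjoin k {t} := by
    ext z
    rw [IntermediateField.mem_fixedField_iff, ← h.fixed]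
    constructor
    · intro h4 g
      exact h4 (ρ g) ⟨g, rfl⟩
    · rintro h4 f ⟨g, rfl⟩
      exact h4 g
  have hfin : FiniteDimensional (IntermediateField.fixedField H) L :=
    (inferInstance : FiniteDimensional (FixedPoints.subfield H L) L)
  have hFcard : Module.finrank (IntermediateField.fixedField H) L = Nat.card G := by
    have := Fintype.ofFinite H
    rw [← hHcard, Nat.card_eq_fintype_card]
    exact FixedPoints.finrank_eq_card H L
  rw [← hE]
  exact ⟨hfin, hFcard⟩

/-- the powers of a transcendental element are independent, in the field it generates -/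
theorem indep_pow {t : L} (ht : Transcendental k t) (K : IntermediateField k L) (tK : K)
    (htK : (tK : L) = t) : LinearIndependent k (fun j : ℕ => tK ^ j) := by
  rw [linearIndependent_iff']
  intro s c hc i hi
  set q : k[X] := ∑ j ∈ s, monomial j (c j) with hq
  have h1 : aeval t q = 0 := by
    rw [hq, map_sum]
    have h2 : K.val (∑ j ∈ s, c j • tK ^ j) = K.val 0 := by rw [hc]
    rw [map_sum, map_zero] at h2
    rw [← h2]
    apply Finset.sum_congr rfl
    intro j _
    rw [aeval_monomial, map_smul, map_pow, IntermediateField.coe_val, htK, Algebra.smul_def]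
  have h3 : q = 0 := by
    by_contra h
    exact ht ⟨q, h, h1⟩
  have h4 : q.coeff i = c i := by
    rw [hq, finset_sum_coeff]
    simp only [coeff_monomial]
    rw [Finset.sum_ite_eq' s i]
    simp [hi]
  rw [← h4, h3, coeff_zero]

/-- regular elements `θ_i`, `i < |H|`, with `t ^ j θ_i` independent over `k` -/
theorem basis {G : Type} [Group G] [Finite G] [IsAlgClosed k] (hFRC : S_FRC)
    (ρ : G →* (L ≃ₐ[k] L)) (t : L) (h : IsCover ρ t) :
    ∃ θ : Fin (Nat.card G) → L, (∀ i, Reg k t (θ i)) ∧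
      LinearIndependent k (fun x : ℕ × Fin (Nat.card G) => t ^ x.1 * θ x.2) := by
  obtain ⟨hfd, hfr⟩ := finrank ρ t h
  set K : IntermediateField k L := IntermediateField.adjoin k {t} with hK
  have htK : t ∈ K := IntermediateField.mem_adjoin_simple_self k t
  let b : Module.Basis (Fin (Nat.card G)) K L := Module.finBasisOfFinrankEq K L hfr
  have hq : ∀ i, ∃ q : k[X], q ≠ 0 ∧ Reg k t (aeval t q * b i) := fun i => hFRC k L G ρ t (b i) h
  choose q hq0 hqr using hq
  refine ⟨fun i => aeval t (q i) * b i, hqr, ?_⟩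
  have hcK : ∀ i, aeval t (q i) = ((aeval (⟨t, htK⟩ : K) (q i) : K) : L) := by
    intro i
    have := Polynomial.aeval_algHom_apply K.val (⟨t, htK⟩ : K) (q i)
    exact this
  have hc0 : ∀ i, (aeval (⟨t, htK⟩ : K) (q i) : K) ≠ 0 := by
    intro i h0
    have h1 : aeval t (q i) = 0 := by rw [hcK i, h0]; rfl
    exact h.trans ⟨q i, hq0 i, h1⟩
  have hli : LinearIndependent K (fun i => aeval t (q i) * b i) := by
    have h2 := b.linearIndependent.units_smul (fun i => Units.mk0 _ (hc0 i))
    have h3 : ((fun i => Units.mk0 _ (hc0 i)) • (b : Fin (Nat.card G) → L)) =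
        (fun i => aeval t (q i) * b i) := by
      funext i
      rw [hcK i]
      rfl
    rwa [h3] at h2
  have h4 := linearIndependent_smul (indep_pow h.trans K (⟨t, htK⟩ : K) rfl) hli
  exact h4

/-- leading coefficient -/
theorem coeff_ord {P : Place k L} (φ : L →ₐ[k] LaurentSeries k)
    (hφ : ∀ x : L, x ≠ 0 → (φ x).order = P.ord x) {x : L} (hx : x ≠ 0) :
    (φ x).coeff (P.ord x) ≠ 0 := by
  rw [← hφ x hx]
  intro h
  rw [HahnSeries.coeff_order_eq_zero] at h
  exact hx ((map_eq_zero φ).1 h)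

theorem ge_of_coeff {P : Place k L} (φ : L →ₐ[k] LaurentSeries k)
    (hφ : ∀ x : L, x ≠ 0 → (φ x).order = P.ord x) {x : L} (m : ℕ) (hx : P.Ge x (-(m : ℤ)))
    (h : ∀ i : Fin m, (φ x).coeff (-((i : ℕ) : ℤ) - 1) = 0) : P.Ge x 0 := by
  rcases hx with h0 | h0
  · exact Or.inl h0
  by_cases hx0 : x = 0
  · exact Or.inl hx0
  right
  by_contra hneg
  push Not at hneg
  obtain ⟨i, hi⟩ : ∃ i : ℕ, P.ord x = -(i : ℤ) - 1 := ⟨(-P.ord x - 1).toNat, by omega⟩
  have him : i < m := by omega
  exact coeff_ord φ hφ hx0 (by rw [hi]; exact h ⟨i, him⟩)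

variable {H : Type} [Group H] [Finite H]

/-- the pole orders -/
def Gam (ρ : H →* (L ≃ₐ[k] L)) (t : L) (P : Place k L) : Set ℕ :=
  {n | ∃ ℓ : L, ℓ ≠ 0 ∧ Reg k t ℓ ∧ P.ord ℓ = -(n : ℤ) ∧
    ∀ h : H, ¬ Fixes P (ρ h) → ρ h ℓ = 0 ∨ 0 ≤ P.ord (ρ h ℓ)}

open scoped Classical in
/-- the count -/
theorem count (ρ : H →* (L ≃ₐ[k] L)) (t : L) (P : Place k L) (I : Subgroup H)
    (hI : ∀ h, h ∈ I ↔ Fixes P (ρ h)) (e C N : ℕ) (ht0 : t ≠ 0) (hte : P.ord t = -(e : ℤ))
    (htf : ∀ h, ρ h t = t) (θ : Fin N → L) (hθ : ∀ i, Reg k t (θ i))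
    (hθi : LinearIndependent k (fun x : ℕ × Fin N => t ^ x.1 * θ x.2))
    (hC : ∀ h i, P.Ge (ρ h (θ i)) (-(C : ℤ)))
    (hconst : ∀ y, Reg k t y → (∀ h, P.Ge (ρ h y) 0) → ∃ c : k, y = algebraMap k L c)
    (φ : L →ₐ[k] LaurentSeries k) (hφ : ∀ x : L, x ≠ 0 → (φ x).order = P.ord x) (M : ℕ) :
    N * M ≤ (Nat.card (H ⧸ I) - 1) * (C + e * M) +
      ((range (C + e * M + 1)).filter (fun n => n ∈ Gam ρ t P)).card := by
  set m : ℕ := C + e * M with hm
  set T : Finset ℕ := (range (m + 1)).filter (fun n => n ∈ Gam ρ t P) with hT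
  have : Fintype (H ⧸ I) := Fintype.ofFinite _
  set Q : Finset (H ⧸ I) := (univ : Finset (H ⧸ I)).erase ((1 : H) : H ⧸ I) with hQ
  -- the linear maps
  let v : Fin M × Fin N → L := fun x => t ^ (x.1 : ℕ) * θ x.2
  have hv : LinearIndependent k v := by
    have := hθi.comp (fun x : Fin M × Fin N => ((x.1 : ℕ), x.2)) (by
      rintro ⟨a, b⟩ ⟨c, d⟩ h
      simp only [Prod.mk.injEq] at h
      exact Prod.ext (Fin.ext h.1) h.2)
    exact this
  let Φ : (Fin M × Fin N → k) →ₗ[k] L := Fintype.linearCombination k v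
  have hΦ : Function.Injective Φ := linearIndependent_iff_injective_fintypeLinearCombination.1 hv
  have hΦr : ∀ c, Reg k t (Φ c) := by
    intro c
    have h1 : Φ c = ∑ x, c x • v x := Fintype.linearCombination_apply _ _ _
    rw [h1]
    apply reg_sum
    intro x _
    rw [Algebra.smul_def]
    exact reg_mul (reg_const t _) (reg_mul (reg_pow_t t ht0 _) (hθ _))
  have hΦm : ∀ c h, P.Ge (ρ h (Φ c)) (-(m : ℤ)) := by
    intro c h
    have h1 : Φ c = ∑ x, c x • v x := Fintype.linearCombination_apply _ _ _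
    rw [h1, map_sum]
    apply P.ge_sum
    intro x _
    rw [map_smul, Algebra.smul_def]
    have h2 : ρ h (v x) = t ^ (x.1 : ℕ) * ρ h (θ x.2) := by
      rw [map_mul, map_pow, htf]
    rw [h2]
    have h3 : P.Ge (t ^ (x.1 : ℕ)) (-((e * M : ℕ) : ℤ)) := by
      right
      rw [P.ord_pow ht0, hte]
      push_cast
      have h4 : ((x.1 : ℕ) : ℤ) ≤ M := by exact_mod_cast x.1.2.le
      nlinarith
    have h5 := P.ge_mul (P.ge_const (c x)) (P.ge_mul h3 (hC h x.2))
    have h6 : (0 : ℤ) + (-((e * M : ℕ) : ℤ) + -(C : ℤ)) = -(m : ℤ) := by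
      rw [hm]
      push_cast
      ring
    rwa [h6] at h5
  have hsm : ∀ (c : k) (x : L) (z : ℤ), (φ (c • x)).coeff z = c * (φ x).coeff z := by
    intro c x z
    rw [Algebra.smul_def, map_mul, AlgHom.commutes]
    have h1 : (algebraMap k (LaurentSeries k) c) = HahnSeries.C c := by
      show (HahnSeries.ofPowerSeries ℤ k) (algebraMap k (PowerSeries k) c) = _
      exact HahnSeries.ofPowerSeries_C c
    rw [h1, HahnSeries.C_mul_eq_smul, HahnSeries.coeff_smul, smul_eq_mul]
  let cf : ℤ → L →ₗ[k] k := fun z =>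
    { toFun := fun x => (φ x).coeff z
      map_add' := fun x y => by rw [map_add, HahnSeries.coeff_add]
      map_smul' := fun c x => by rw [hsm]; rfl }
  have hcf : ∀ z x, cf z x = (φ x).coeff z := fun z x => rfl
  let Ψ : (Fin M × Fin N → k) →ₗ[k] ((Q × Fin m → k) × (T → k)) :=
    LinearMap.prod
      (LinearMap.pi (fun x : Q × Fin m =>
        (cf (-((x.2 : ℕ) : ℤ) - 1)) ∘ₗ ((ρ ((x.1 : H ⧸ I).out⁻¹)).toLinearMap ∘ₗ Φ)))
      (LinearMap.pi (fun n : T => (cf (-((n : ℕ) : ℤ))) ∘ₗ Φ))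
  have hΨ1 : ∀ c (x : Q × Fin m), (Ψ c).1 x =
      (φ (ρ ((x.1 : H ⧸ I).out⁻¹) (Φ c))).coeff (-((x.2 : ℕ) : ℤ) - 1) := fun c x => rfl
  have hΨ2 : ∀ c (n : T), (Ψ c).2 n = (φ (Φ c)).coeff (-((n : ℕ) : ℤ)) := fun c n => rfl
  have hinj : Function.Injective Ψ := by
    rw [← LinearMap.ker_eq_bot, LinearMap.ker_eq_bot']
    intro c hc
    by_contra hc0
    have hy0 : Φ c ≠ 0 := by
      intro h
      exact hc0 (hΦ (by rw [h, map_zero]))
    -- no poles at the other places
    have hout : ∀ h : H, ¬ Fixes P (ρ h) → P.Ge (ρ h (Φ c)) 0 := by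
      intro h hh
      have hq : ((h⁻¹ : H) : H ⧸ I) ∈ Q := by
        rw [hQ, Finset.mem_erase]
        refine ⟨?_, mem_univ _⟩
        intro h1
        rw [QuotientGroup.eq, mul_one, inv_inv] at h1
        exact hh ((hI h).1 h1)
      obtain ⟨u, hu⟩ := QuotientGroup.mk_out_eq_mul I h⁻¹
      have h2 : P.Ge (ρ ((((h⁻¹ : H) : H ⧸ I)).out⁻¹) (Φ c)) 0 := by
        apply ge_of_coeff φ hφ m (hΦm c _)
        intro i
        have h3 := hΨ1 c (⟨_, hq⟩, i)
        rw [hc] at h3
        exact h3.symm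
      have h4 : ρ h = ρ (u : H) * ρ ((((h⁻¹ : H) : H ⧸ I)).out⁻¹) := by
        rw [← map_mul, hu]
        congr 1
        group
      rw [h4, AlgEquiv.mul_apply]
      exact Fixes.ge ((hI u).1 u.2) h2
    -- the order at `P` is not positive
    have hord : P.ord (Φ c) ≤ 0 := by
      by_contra hpos
      push Not at hpos
      obtain ⟨d, hd⟩ := hconst (Φ c) (hΦr c) (by
        intro h
        by_cases hh : Fixes P (ρ h)
        · exact Fixes.ge hh (Or.inr hpos.le)
        · exact hout h hh)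
      have hd0 : d ≠ 0 := by
        rintro rfl
        rw [map_zero] at hd
        exact hy0 hd
      rw [hd, P.ord_const d hd0] at hpos
      exact lt_irrefl _ hpos
    obtain ⟨n, hn⟩ : ∃ n : ℕ, P.ord (Φ c) = -(n : ℤ) := ⟨(-P.ord (Φ c)).toNat, by omega⟩
    have hnm : n ≤ m := by
      have h1 := hΦm c 1
      rw [map_one, AlgEquiv.one_apply] at h1
      have h2 := (P.ge_iff hy0 _).1 h1
      omega
    have hnT : n ∈ T := by
      rw [hT, Finset.mem_filter, Finset.mem_range]
      exact ⟨by omega, Φ c, hy0, hΦr c, hn, hout⟩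
    have h5 := hΨ2 c ⟨n, hnT⟩
    rw [hc] at h5
    have h6 := coeff_ord φ hφ hy0
    rw [hn] at h6
    exact h6 h5.symm
  have hfin := LinearMap.finrank_le_finrank_of_injective hinj
  rw [Module.finrank_prod, Module.finrank_fintype_fun_eq_card, Module.finrank_fintype_fun_eq_card,
    Module.finrank_fintype_fun_eq_card, Fintype.card_prod, Fintype.card_prod, Fintype.card_fin,
    Fintype.card_fin, Fintype.card_fin, Fintype.card_coe, Fintype.card_coe] at hfin
  have hQc : Q.card = Nat.card (H ⧸ I) - 1 := by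
    rw [hQ, Finset.card_erase_of_mem (mem_univ _), Finset.card_univ, Nat.card_eq_fintype_card]
  rw [hQc] at hfin
  rw [mul_comm]
  exact hfin

end

end XRRAux

theorem xrr_thm (hFRC : S_FRC) (hINF : S_INF) (hREG : S_REG) (hLEX : S_LEX) (hTRV : S_TRV) :
    S_XRR := by
  classical
  intro k L H _ _ _ _ _ _ ρ t P hcov ht
  have ht0 : t ≠ 0 := by
    intro h
    apply hcov.trans
    rw [h]
    exact isAlgebraic_zero
  have htf : ∀ g : H, ρ g t = t := fun g => (hcov.fixed t).2
    (IntermediateField.mem_adjoin_simple_self k t) g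
  -- transitivity
  have htr : ∀ P' : Place k L, P'.ord t < 0 → ∃ c : H, ∀ z : L, z ≠ 0 → P'.ord z = P.ord (ρ c z) := by
    intro P' ht'
    obtain ⟨c, -, h⟩ := hTRV k L H ρ ⊤ P P' (by
      intro z hz hfix hz0
      have h1 : z ∈ IntermediateField.adjoin k {t} :=
        (hcov.fixed z).1 fun g => hfix g (Subgroup.mem_top g)
      rw [IntermediateField.mem_adjoin_simple_iff] at h1
      obtain ⟨r, s, rfl⟩ := h1
      have hr : r ≠ 0 := by
        rintro rfl
        exact hz (by simp)
      have hs : s ≠ 0 := by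
        rintro rfl
        exact hz (by simp)
      obtain ⟨a1, a2⟩ := XRRAux.ord_poly ht ht0 _ r rfl hr
      obtain ⟨b1, b2⟩ := XRRAux.ord_poly ht ht0 _ s rfl hs
      obtain ⟨-, c2⟩ := XRRAux.ord_poly ht' ht0 _ r rfl hr
      obtain ⟨-, d2⟩ := XRRAux.ord_poly ht' ht0 _ s rfl hs
      rw [P.ord_div a1 b1, a2, b2] at hz0
      rw [P'.ord_div a1 b1, c2, d2]
      have h2 : ((r.natDegree : ℤ) - s.natDegree) * P.ord t = 0 := by linear_combination hz0
      rcases mul_eq_zero.1 h2 with h3 | h3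
      · linear_combination P'.ord t * h3
      · exact absurd h3 ht.ne)
    exact ⟨c, h⟩
  -- the inertia group
  let I : Subgroup H :=
    { carrier := {h | Fixes P (ρ h)}
      mul_mem' := by
        intro a b ha hb
        show Fixes P (ρ (a * b))
        rw [map_mul]
        exact Fixes.mul ha hb
      one_mem' := by
        show Fixes P (ρ 1)
        rw [map_one]
        exact Fixes.one
      inv_mem' := by
        intro a ha
        show Fixes P (ρ a⁻¹)
        rw [map_inv]
        exact Fixes.inv ha }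
  have hI : ∀ h, h ∈ I ↔ Fixes P (ρ h) := fun h => Iff.rfl
  have hIr : (I : Set H) = ram P ρ 0 := by
    ext g
    constructor
    · intro h
      have h' : Fixes P (ρ g) := h
      refine ⟨h', fun u hu hu1 => ?_⟩
      by_cases h0 : ρ g u - u = 0
      · left
        exact sub_eq_zero.1 h0
      · right
        have h1 : P.Ge (ρ g u) 1 := Fixes.ge h' (Or.inr hu1.ge)
        have h2 : P.Ge u 1 := Or.inr hu1.ge
        have h3 := (P.ge_iff h0 1).1 (P.ge_sub h1 h2)
        push_cast
        omega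
    · intro h
      exact h.1
  have hte := hINF k L H ρ t P I hcov ht hIr
  obtain ⟨θ, hθ, hθi⟩ := XRRAux.basis hFRC ρ t hcov
  obtain ⟨C, hC⟩ : ∃ C : ℕ, ∀ h i, P.Ge (ρ h (θ i)) (-(C : ℤ)) := by
    have hfin : (Set.range (fun x : H × Fin (Nat.card H) =>
        (-(P.ord (ρ x.1 (θ x.2)))).toNat)).Finite := Set.finite_range _
    obtain ⟨C, hC⟩ := hfin.bddAbove
    refine ⟨C, fun h i => Or.inr ?_⟩
    have h1 : (-(P.ord (ρ h (θ i)))).toNat ≤ C := hC ⟨(h, i), rfl⟩
    omega
  have hconst : ∀ y, Reg k t y → (∀ h, P.Ge (ρ h y) 0) → ∃ c : k, y = algebraMap k L c := by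
    intro y hy hg
    apply hREG k L H ρ t y hcov
    intro P'
    rcases lt_or_ge (P'.ord t) 0 with h | h
    · obtain ⟨c, hc⟩ := htr P' h
      by_cases hy0 : y = 0
      · exact Or.inl hy0
      right
      rw [hc y hy0]
      have hy1 : ρ c y ≠ 0 := by
        intro h1
        exact hy0 ((ρ c).injective (by rw [h1, map_zero]))
      exact (P.ge_iff hy1 0).1 (hg c)
    · exact hy P' h
  obtain ⟨u, hu, hu1⟩ := P.ord_surj
  obtain ⟨φ, -, hφ⟩ := hLEX k L P u hu hu1
  have hcount := XRRAux.count ρ t P I hI (Nat.card I) C (Nat.card H) ht0 hte htf θ hθ hθi hC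
    hconst φ hφ
  have hge : Nat.card H = Nat.card (H ⧸ I) * Nat.card I :=
    Subgroup.card_eq_card_quotient_mul_card_subgroup I
  have he1 : 1 ≤ Nat.card I := Nat.card_pos
  have hg1 : 1 ≤ Nat.card (H ⧸ I) := Nat.card_pos
  generalize Nat.card I = e at *
  generalize Nat.card (H ⧸ I) = g at *
  have hgap : ((XRRAux.Gam ρ t P)ᶜ).Finite := by
    by_contra hinf
    obtain ⟨F, hF, hFc⟩ := Set.Infinite.exists_subset_card_eq hinf (g * C + 2)
    obtain ⟨b, hb⟩ := F.bddAbove
    have h1 := hcount b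
    have h2 : F ⊆ (range (C + e * b + 1)).filter (fun n => ¬ n ∈ XRRAux.Gam ρ t P) := by
      intro n hn
      rw [Finset.mem_filter, Finset.mem_range]
      have h3 : n ≤ b := hb hn
      refine ⟨?_, hF hn⟩
      nlinarith
    have h3 := Finset.card_le_card h2
    have h4 := Finset.card_filter_add_card_filter_not (s := range (C + e * b + 1))
      (fun n => n ∈ XRRAux.Gam ρ t P)
    rw [Finset.card_range] at h4
    rw [hFc] at h3
    rw [hge] at h1
    obtain ⟨g', rfl⟩ : ∃ g', g = g' + 1 := ⟨g - 1, by omega⟩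
    rw [Nat.add_sub_cancel] at h1
    nlinarith
  obtain ⟨b, hb⟩ := hgap.bddAbove
  refine ⟨b + 1, fun n hn => ?_⟩
  by_contra hcon
  have h1 : n ∈ (XRRAux.Gam ρ t P)ᶜ := hcon
  have h2 := hb h1
  omega

end Pool.CND
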